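import Pool.Agent.MP_1246c0_nt.H12.SpecA

/-! The layers of the cyclotomic tower over the rationals. -/

namespace Pool.Agent.MP_1246c0_nt.H12

open NumberField IsDedekindDomain Polynomial Pool.Agent.MP_db5b97_nt.H85

namespace CY

section Ring

variable {R S : Type} [CommRing R] [CommRing S]

theorem map_tw {φ : Type} [FunLike φ R S] [RingHomClass φ R S] (f : φ) (n : ℕ) (x : R) :
    f (tw^[n] x) = tw^[n] (f x) :=
  Function.Semiconj.iterate_right (f := f) (fun x => by simp [tw, map_ofNat]) n x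

theorem tw_cube (n : ℕ) (x : R) : tw^[n] (x ^ 3 - 3 * x) = (tw^[n] x) ^ 3 - 3 * tw^[n] x :=
  (Function.Semiconj.iterate_right (f := fun x : R => x ^ 3 - 3 * x)
    (fun x => by simp only [tw]; ring) n x).symm

theorem tw_dvd (n : ℕ) (x y : R) : x - y ∣ tw^[n] x - tw^[n] y := by
  induction n with
  | zero => exact dvd_rfl
  | succ n ih =>
    rw [Function.iterate_succ_apply', Function.iterate_succ_apply']
    exact ih.trans ⟨tw^[n] x + tw^[n] y, by simp only [tw]; ring⟩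

theorem tw_neg_two (n : ℕ) : tw^[n] (-2 : R) = 2 ∨ tw^[n] (-2 : R) = -2 := by
  induction n with
  | zero => exact .inr rfl
  | succ n ih =>
    rw [Function.iterate_succ_apply']
    rcases ih with h | h <;> rw [h, tw] <;> exact .inl (by ring)

theorem dvd_two {n : ℕ} {x : R} (h : tw^[n] x = 0) : 2 + x ∣ 2 := by
  have := tw_dvd n x (-2)
  rw [h, zero_sub, dvd_neg, sub_neg_eq_add, add_comm] at this
  rcases tw_neg_two (R := R) n with e | e <;> rw [e] at this
  exacts [this, dvd_neg.1 this]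

/-- Different roots are different modulo odd primes. -/
theorem eq_of_sub_mem [IsDomain R] {p : Ideal R} (hp : p.IsPrime) (h2 : (2 : R) ∉ p) (n : ℕ) :
    ∀ x y : R, tw^[n] x = 0 → tw^[n] y = 0 → x - y ∈ p → x = y := by
  induction n with
  | zero => exact fun x y hx hy _ => hx.trans hy.symm
  | succ n ih =>
    intro x y hx hy h
    have e := ih _ _ hx hy (Ideal.mem_of_dvd p (tw_dvd 1 x y) h)
    have e' : (x - y) * (x + y) = 0 := by
      simp only [tw] at e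
      linear_combination e
    rcases mul_eq_zero.1 e' with e' | e'
    · exact sub_eq_zero.1 e'
    · refine absurd (Ideal.mem_of_dvd p (dvd_two (n := n) hx) ?_) h2
      have h3 : 2 * x = x - y := by linear_combination e'
      have h4 : 2 + tw x = x * x := by simp only [tw]; ring
      rw [h4]
      exact p.mul_mem_left _ ((hp.mem_or_mem (h3 ▸ h)).resolve_left h2)

theorem poly [Nontrivial R] (n : ℕ) :
    (tw^[n] (X : R[X])).Monic ∧ (tw^[n] (X : R[X])).natDegree = 2 ^ n := by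
  induction n with
  | zero => exact ⟨monic_X, natDegree_X⟩
  | succ n ih =>
    rw [Function.iterate_succ_apply', tw]
    have h1 : ((tw^[n] (X : R[X])) ^ 2).natDegree = 2 ^ (n + 1) := by
      rw [ih.1.natDegree_pow, ih.2, pow_succ']
    have h2 : (2 : R[X]).natDegree < ((tw^[n] (X : R[X])) ^ 2).natDegree := by
      rw [h1, natDegree_ofNat]
      positivity
    exact ⟨(ih.1.pow 2).sub_of_left (degree_lt_degree h2),
      (natDegree_sub_eq_left_of_natDegree_lt h2).trans h1⟩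

theorem aeval_poly [Algebra R S] (n : ℕ) (x : S) : aeval x (tw^[n] (X : R[X])) = tw^[n] x := by
  rw [map_tw, aeval_X]

theorem integral {n : ℕ} {x : R} (h : tw^[n] x = 0) : IsIntegral ℤ x :=
  ⟨_, (poly n).1, (aeval_poly n x).trans h⟩

end Ring

section Val

variable {F : Type} [Field F] [NumberField F] {n : ℕ} {θ : F}

omit [NumberField F] in
theorem val_pow {Γ : Type} [LinearOrderedCommGroupWithZero Γ] (v : Valuation F Γ) (h0 : v 2 ≠ 0)
    (h1 : v 2 < 1) (n : ℕ) : ∀ x : F, tw^[n] x = 0 → v (2 + x) ^ 2 ^ n = v 2 := by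
  induction n with
  | zero =>
    rintro x (rfl : x = 0)
    simp
  | succ n ih =>
    intro x hx
    have e := ih _ hx
    have h4 : 2 + tw x = x ^ 2 := by simp only [tw]; ring
    rw [h4, map_pow, ← pow_mul, ← pow_succ'] at e
    have hn : 1 < 2 ^ (n + 1) := Nat.one_lt_two_pow (Nat.succ_ne_zero n)
    have h5 : v x < 1 := by
      by_contra h
      exact absurd (e ▸ one_le_pow₀ (not_lt.1 h)) (not_le.2 h1)
    have h6 : 0 < v x := zero_lt_iff.2 fun h => h0 (by rw [← e, h, zero_pow (by omega)])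
    have h7 : v 2 < v x := by
      rw [← e]
      exact pow_lt_self_of_lt_one₀ h6 h5 hn
    rw [v.map_add_eq_of_lt_right h7, e]

/-- The root as an algebraic integer. -/
def io (h : tw^[n] θ = 0) : 𝓞 F := ⟨θ, integral h⟩

omit [NumberField F] in
theorem io_root (h : tw^[n] θ = 0) : tw^[n] (io h) = 0 :=
  RingOfIntegers.ext ((map_tw (algebraMap (𝓞 F) F) n _).trans h)

theorem ne_zero (h : tw^[n] θ = 0) : 2 + θ ≠ 0 := fun e =>
  two_ne_zero (zero_dvd_iff.1 (e ▸ dvd_two h))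

theorem val_eq (h : tw^[n] θ = 0) (w : Sp F) :
    w.valuation F (2 + θ) ^ 2 ^ n = w.valuation F 2 := by
  by_cases h2 : (2 : 𝓞 F) ∈ w.asIdeal
  · exact val_pow _ (by simp) ((val_lt_one_iff w 2).2 h2) n θ h
  · have h3 : 2 + io h ∉ w.asIdeal := fun e => h2 (Ideal.mem_of_dvd _ (dvd_two (io_root h)) e)
    have e1 : w.valuation F (2 + θ) = 1 := (val_eq_one_iff w _).2 h3
    have e2 : w.valuation F 2 = 1 := (val_eq_one_iff w _).2 h2
    rw [e1, e2, one_pow]

theorem span_pow (h : tw^[n] θ = 0) :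
    Ideal.span {2 + io h} ^ 2 ^ n = Ideal.span {((2 : ℕ) : 𝓞 F)} := by
  have key : ∀ a b : 𝓞 F, (b : F) ≠ 0 → (∀ w : Sp F, w.valuation F (a : F) = w.valuation F b) →
      b ∣ a := by
    intro a b hb e
    obtain ⟨c, hc⟩ := HeightOneSpectrum.mem_integers_of_valuation_le_one (R := 𝓞 F) F
      ((a : F) / b) fun w => by rw [map_div₀, e, div_self (by simpa using hb)]
    refine ⟨c, RingOfIntegers.ext ?_⟩
    change (a : F) = b * algebraMap _ F c
    rw [hc, mul_div_cancel₀ _ hb]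
  have e : ∀ w : Sp F, w.valuation F (((2 + io h) ^ 2 ^ n : 𝓞 F) : F) =
      w.valuation F ((2 : 𝓞 F) : F) := fun w => (map_pow _ _ _).trans (val_eq h w)
  rw [Ideal.span_singleton_pow, Ideal.span_singleton_eq_span_singleton]
  exact associated_of_dvd_dvd (key _ _ (pow_ne_zero _ (ne_zero h)) fun w => (e w).symm)
    (key _ _ two_ne_zero e)

theorem norm_pow (h : tw^[n] θ = 0) :
    Ideal.absNorm (Ideal.span {2 + io h}) ^ 2 ^ n = 2 ^ Module.finrank ℚ F := by
  rw [← map_pow, span_pow, Ideal.absNorm_span_natCast, RingOfIntegers.rank]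

theorem le_rank (h : tw^[n] θ = 0) : 2 ^ n ≤ Module.finrank ℚ F := by
  have e := norm_pow h
  have h1 : 1 < 2 ^ Module.finrank ℚ F := Nat.one_lt_two_pow Module.finrank_pos.ne'
  have h2 : 2 ≤ Ideal.absNorm (Ideal.span {2 + io h}) := by
    by_contra h3
    exact absurd (e ▸ pow_le_one₀ (Nat.zero_le _) (by omega)) (not_le.2 h1)
  exact (Nat.pow_le_pow_iff_right one_lt_two).1 (e ▸ Nat.pow_le_pow_left h2 _)

/-- The power basis. -/
noncomputable def pb (hg : IntermediateField.adjoin ℚ {θ} = ⊤) : PowerBasis ℚ F :=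
  PowerBasis.ofAdjoinEqTop (x := θ) (Algebra.IsIntegral.isIntegral θ) (by
    rw [← IntermediateField.adjoin_simple_toSubalgebra_of_isAlgebraic
      (Algebra.IsAlgebraic.isAlgebraic θ), hg, IntermediateField.top_toSubalgebra])

theorem hom_ext (hg : IntermediateField.adjoin ℚ {θ} = ⊤) {E : Type} [DivisionRing E] [CharZero E]
    {f g : F →+* E} (h : f θ = g θ) : f = g :=
  (RingHom.equivRatAlgHom F E).injective ((pb hg).algHom_ext h)

theorem minp (hg : IntermediateField.adjoin ℚ {θ} = ⊤) (h : tw^[n] θ = 0) :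
    minpoly ℚ θ = tw^[n] X ∧ Module.finrank ℚ F = 2 ^ n := by
  have h1 : Module.finrank ℚ F = (minpoly ℚ θ).natDegree := (pb hg).finrank
  have h2 : minpoly ℚ θ = tw^[n] X :=
    (eq_of_monic_of_dvd_of_natDegree_le (minpoly.monic (Algebra.IsIntegral.isIntegral θ))
      (poly n).1 (minpoly.dvd ℚ θ ((aeval_poly n θ).trans h))
      (by rw [(poly n).2, ← h1]; exact le_rank h)).symm
  exact ⟨h2, by rw [h1, h2, (poly n).2]⟩

theorem lift (hg : IntermediateField.adjoin ℚ {θ} = ⊤) (h : tw^[n] θ = 0) {E : Type} [Field E]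
    [Algebra ℚ E] {y : E} (hy : tw^[n] y = 0) : ∃ f : F →ₐ[ℚ] E, f θ = y :=
  ⟨(pb hg).lift y (by
    change aeval y (minpoly ℚ θ) = 0
    rw [(minp hg h).1, aeval_poly, hy]), (pb hg).lift_gen _ _⟩

end Val

section Cx

/-- Sums of inverse powers. -/
noncomputable def ss (z : ℂ) (a : ℤ) : ℂ := z ^ a + z ^ (-a)

variable {z : ℂ}

theorem tw_ss (hz : z ≠ 0) (n : ℕ) (a : ℤ) : tw^[n] (ss z a) = ss z (a * 2 ^ n) := by
  induction n with
  | zero => simp
  | succ n ih =>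
    have := zpow_ne_zero (a * 2 ^ n) hz
    rw [Function.iterate_succ_apply', ih, pow_succ, ← mul_assoc]
    simp only [tw, ss, zpow_neg, zpow_mul z _ 2, zpow_ofNat]
    field_simp
    ring

theorem cube_ss (hz : z ≠ 0) (a : ℤ) : ss z a ^ 3 - 3 * ss z a = ss z (a * (-3)) := by
  have := zpow_ne_zero a hz
  simp only [ss, zpow_neg, zpow_mul z _ 3, zpow_ofNat, mul_neg, inv_inv]
  field_simp
  ring

theorem ss_eq (hz : z ≠ 0) (a : ℤ) : ss z a = ss z 1 ↔ z ^ (a - 1) = 1 ∨ z ^ (a + 1) = 1 := by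
  have := zpow_ne_zero a hz
  have e : ss z a - ss z 1 = (z ^ a)⁻¹ * ((z ^ (a - 1) - 1) * (z ^ (a + 1) - 1)) := by
    simp only [ss, zpow_neg, zpow_sub₀ hz, zpow_add₀ hz, zpow_one]
    field_simp
    ring
  rw [← sub_eq_zero, e, mul_eq_zero, mul_eq_zero, sub_eq_zero, sub_eq_zero]
  exact or_iff_right (inv_ne_zero this)

theorem exists_z {n : ℕ} {x : ℂ} (h : tw^[n] x = 0) :
    ∃ z : ℂ, IsPrimitiveRoot z (2 ^ (n + 2)) ∧ x = ss z 1 := by
  obtain ⟨s, hs⟩ := IsAlgClosed.exists_pow_nat_eq (x ^ 2 - 4) two_pos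
  obtain ⟨z, e⟩ : ∃ z : ℂ, z * (x - z) = 1 := ⟨(x + s) / 2, by linear_combination (-1 / 4) * hs⟩
  have hz : z ≠ 0 := left_ne_zero_of_mul_eq_one e
  have h1 : x = ss z 1 := by
    simp only [ss, zpow_neg, zpow_one]
    rw [inv_eq_of_mul_eq_one_right e, add_sub_cancel]
  refine ⟨z, ?_, h1⟩
  have h2 : z ^ 2 ^ (n + 1) = -1 := by
    rw [h1, tw_ss hz, one_mul, ss, zpow_neg] at h
    norm_cast at h
    have := pow_ne_zero (2 ^ n) hz
    field_simp at h
    rw [pow_succ, pow_mul]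
    linear_combination h
  rw [← orderOf_eq_prime_pow (x := z) (p := 2) (n := n + 1) (by rw [h2]; norm_num)
    (by rw [pow_succ, pow_mul, h2]; norm_num)]
  exact IsPrimitiveRoot.orderOf z

theorem three (n k : ℕ) : ((2 ^ (n + 2) : ℕ) : ℤ) ∣ (-3) ^ k - 1 ∨
    ((2 ^ (n + 2) : ℕ) : ℤ) ∣ (-3) ^ k + 1 ↔ 2 ^ n ∣ k := by
  rw [or_iff_left, ← ZMod.orderOf_one_add_four_mul (-1) (by decide) n, orderOf_dvd_iff_pow_eq_one,
    ← ZMod.intCast_zmod_eq_zero_iff_dvd]
  · push_cast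
    norm_num [sub_eq_zero]
  · intro h
    have h1 : (4 : ℤ) ∣ (-3) ^ k + 1 := Dvd.dvd.trans ⟨2 ^ n, by push_cast; ring⟩ h
    have h2 : (-3 : ℤ) - 1 ∣ (-3) ^ k - 1 ^ k := sub_dvd_pow_sub_pow _ _ _
    have h3 := dvd_sub h1 (neg_dvd.1 (show -4 ∣ _ from h2))
    rw [one_pow, add_sub_sub_cancel] at h3
    exact absurd h3 (by decide)

end Cx

variable {F : Type} [Field F] [NumberField F] {n : ℕ} {θ : F} {γ : F ≃ₐ[ℚ] F}

theorem order (h : Cy F n θ γ) : orderOf γ = 2 ^ n := by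
  let ρ : F →+* ℂ := (IsAlgClosed.lift (R := ℚ) (S := F) (M := ℂ)).toRingHom
  obtain ⟨z, hz, e⟩ := exists_z (n := n) (x := ρ θ) (by rw [← map_tw, h.root, map_zero])
  have h0 := hz.ne_zero (by positivity)
  have h1 : ∀ k : ℕ, ρ ((γ ^ k) θ) = ss z ((-3) ^ k) := by
    intro k
    induction k with
    | zero => simpa using e
    | succ k ih =>
      rw [pow_succ, AlgEquiv.mul_apply, h.act, pow_succ (-3 : ℤ), ← cube_ss h0, ← ih]
      simp only [map_sub, map_mul, map_pow, map_ofNat]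
  have h2 : ∀ k : ℕ, γ ^ k = 1 ↔ 2 ^ n ∣ k := by
    intro k
    rw [← three, ← hz.zpow_eq_one_iff_dvd, ← hz.zpow_eq_one_iff_dvd, ← ss_eq h0, ← h1, ← e,
      ρ.injective.eq_iff]
    exact ⟨fun a => by rw [a]; rfl,
      fun a => AlgEquiv.coe_toAlgHom_injective ((pb h.gen).algHom_ext a)⟩
  exact Nat.dvd_antisymm (orderOf_dvd_of_pow_eq_one ((h2 _).2 dvd_rfl))
    ((h2 _).1 (pow_orderOf_eq_one γ))

theorem card (h : Cy F n θ γ) : Nat.card (F ≃ₐ[ℚ] F) = 2 ^ n := by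
  refine le_antisymm ?_ (order h ▸ orderOf_le_card)
  rw [Nat.card_eq_fintype_card, ← h.rk]
  exact AlgEquiv.card_le

theorem galois (h : Cy F n θ γ) : IsGalois ℚ F :=
  IsGalois.of_card_aut_eq_finrank ℚ F ((card h).trans h.rk.symm)

theorem cyc (h : Cy F n θ γ) (g : F ≃ₐ[ℚ] F) : ∃ k : ℕ, g = γ ^ k := by
  have : Subgroup.zpowers γ = ⊤ :=
    Subgroup.eq_top_of_card_eq _ (by rw [Nat.card_zpowers, order h, card h])
  obtain ⟨k, hk⟩ := mem_powers_iff_mem_zpowers.2 (this ▸ Subgroup.mem_top g)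
  exact ⟨k, hk.symm⟩

theorem isReal (h : Cy F n θ γ) (ρ : F →+* ℂ) : ComplexEmbedding.IsReal ρ := by
  obtain ⟨z, hz, e⟩ := exists_z (n := n) (x := ρ θ) (by rw [← map_tw, h.root, map_zero])
  refine ComplexEmbedding.isReal_iff.2 (hom_ext h.gen ?_)
  have h1 : starRingEnd ℂ z = z⁻¹ :=
    (Complex.inv_eq_conj (hz.norm'_eq_one (by positivity))).symm
  rw [ComplexEmbedding.conjugate_coe_eq, e]
  simp [ss, h1, add_comm]

theorem conj (h : Cy F n θ γ) (ρ ρ' : F →+* ℝ) : ∃ g : F ≃ₐ[ℚ] F, ∀ x, ρ' x = ρ (g x) := by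
  have := galois h
  obtain ⟨g, e⟩ := ComplexEmbedding.exists_comp_symm_eq_of_comp_eq (k := ℚ)
    (Complex.ofRealHom.comp ρ) (Complex.ofRealHom.comp ρ') (Subsingleton.elim _ _)
  exact ⟨g.symm, fun x => Complex.ofReal_injective (RingHom.congr_fun e x).symm⟩

theorem real (h : Cy F n θ γ) : IsTotallyReal F ∧ Nat.card (F →+* ℝ) = 2 ^ n ∧
    ∀ ρ ρ' : F →+* ℝ, ∃ k : ℕ, ∀ x, ρ' x = ρ ((γ ^ k) x) := by
  refine ⟨⟨fun v => InfinitePlace.isReal_iff.2 (isReal h _)⟩, ?_, fun ρ ρ' => ?_⟩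
  · let ρ := (isReal h (IsAlgClosed.lift (R := ℚ) (S := F) (M := ℂ)).toRingHom).embedding
    rw [← card h]
    refine (Nat.card_eq_of_bijective (fun g : F ≃ₐ[ℚ] F => ρ.comp (g : F →+* F))
      ⟨fun g g' e => AlgEquiv.ext fun x => ρ.injective (RingHom.congr_fun e x), fun ρ' => ?_⟩).symm
    obtain ⟨g, e⟩ := conj h ρ ρ'
    exact ⟨g, RingHom.ext fun x => (e x).symm⟩
  · obtain ⟨g, e⟩ := conj h ρ ρ'
    obtain ⟨k, rfl⟩ := cyc h g
    exact ⟨k, e⟩

theorem two (h : Cy F n θ γ) :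
    2 + θ ≠ 0 ∧ ∃ w : Sp F, (∀ v : Sp F, ((2 : ℕ) : 𝓞 F) ∈ v.asIdeal ↔ v = w) ∧
      (∀ x : Un F, x.val = 2 + θ → ord w x = 1 ∧ dv F 2 x = 0) ∧
      (∀ x : Un F, x.val = 2 → ord w x = 2 ^ n) ∧
      ∀ x : 𝓞 F, x ∈ w.asIdeal ∨ x - 1 ∈ w.asIdeal := by
  have h0 := ne_zero h.root
  have h0' : 2 + io h.root ≠ 0 := fun e => h0 (congrArg (algebraMap (𝓞 F) F) e)
  have h1 : Ideal.absNorm (Ideal.span {2 + io h.root}) = 2 :=
    Nat.pow_left_injective (by positivity) ((norm_pow h.root).trans (by rw [h.rk]))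
  let w : Sp F := ⟨Ideal.span {2 + io h.root},
    Ideal.isPrime_of_irreducible_absNorm (h1 ▸ Nat.prime_two), by simpa using h0'⟩
  have h2 : w.valuation F (2 + θ) = WithZero.exp (-1) :=
    (val_coe w (2 + io h.root)).trans (w.intValuation_singleton h0' rfl)
  refine ⟨h0, w, fun v => ?_, fun x hx => ⟨?_, ?_⟩, fun x hx => ?_, fun x => ?_⟩
  · rw [← Ideal.span_singleton_le_iff_mem, ← span_pow h.root,
      v.isPrime.pow_le_iff (by positivity)]
    exact ⟨fun a => HeightOneSpectrum.ext (w.isMaximal.eq_of_le v.isPrime.ne_top a).symm,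
      fun a => a ▸ le_rfl⟩
  · rw [ord_apply, hx, h2, WithZero.log_exp, neg_neg]
  · ext v
    rw [dv_apply, Finsupp.zero_apply, ord_eq_zero_iff, hx]
    exact (val_eq_one_iff v.1 (2 + io h.root)).2 fun e =>
      v.2 (Ideal.mem_of_dvd _ (dvd_two (io_root h.root)) e)
  · rw [ord_apply, hx, ← val_eq h.root, h2, ← WithZero.exp_nsmul, WithZero.log_exp]
    simp
  · have h3 : Nat.card (𝓞 F ⧸ w.asIdeal) = 2 := h1
    obtain ⟨y, -, hy⟩ := (Nat.card_eq_two_iff' (0 : 𝓞 F ⧸ w.asIdeal)).1 h3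
    refine or_iff_not_imp_left.2 fun hx => Ideal.Quotient.eq.1 ?_
    have := w.isPrime
    rw [hy _ (mt Ideal.Quotient.eq_zero_iff_mem.1 hx), map_one, hy 1 one_ne_zero]

theorem dist (h : Cy F n θ γ) (w : Pr F 2) (k : ℕ)
    (hw : w.1.valuation F ((γ ^ k) θ - θ) < 1) : γ ^ k = 1 := by
  have h1 : tw^[n] ((γ ^ k) θ) = 0 := by rw [← map_tw, h.root, map_zero]
  have h2 := eq_of_sub_mem w.1.isPrime w.2 n _ _ (io_root h1) (io_root h.root)
    ((val_lt_one_iff w.1 _).1 hw)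
  exact AlgEquiv.coe_toAlgHom_injective
    ((pb h.gen).algHom_ext (congrArg (algebraMap (𝓞 F) F) h2))

theorem mk (hg : IntermediateField.adjoin ℚ {θ} = ⊤) (h : tw^[n] θ = 0) : ∃ γ, Cy F n θ γ := by
  obtain ⟨f, e⟩ := lift hg h (y := θ ^ 3 - 3 * θ) (by rw [tw_cube, h]; ring)
  exact ⟨AlgEquiv.ofBijective f (Algebra.IsAlgebraic.algHom_bijective f), (minp hg h).2, hg, h, e⟩

theorem ex (n : ℕ) :
    ∃ (F : Type) (_ : Field F) (_ : NumberField F) (θ : F) (γ : F ≃ₐ[ℚ] F), Cy F n θ γ := by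
  obtain ⟨q, hq, hd⟩ := exists_irreducible_of_natDegree_pos (f := tw^[n] (X : ℚ[X]))
    (by rw [(poly n).2]; positivity)
  have := Fact.mk hq
  obtain ⟨γ, h⟩ := mk (F := AdjoinRoot q) (n := n) (θ := AdjoinRoot.root q)
    (IntermediateField.adjoin_root_eq_top q) (by
      rw [← AdjoinRoot.mk_X, ← map_tw]
      exact AdjoinRoot.mk_eq_zero.2 hd)
  exact ⟨_, _, _, _, γ, h⟩

theorem range_eq {K E L : Type} [Field K] [Field E] [Field L] [Algebra K E] [Algebra K L]
    [FiniteDimensional K L] (j : E →ₐ[K] L) (g : L ≃ₐ[K] L) (h1 : ∀ x, g (j x) = j x)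
    (h2 : Module.finrank K E * orderOf g = Module.finrank K L) (y : L) :
    y ∈ j.fieldRange ↔ g y = y := by
  have h3 : ∀ y, y ∈ IntermediateField.fixedField (Subgroup.zpowers g) ↔ g y = y := fun y =>
    (IntermediateField.mem_fixedField_iff _ y).trans ⟨fun a => a _ (Subgroup.mem_zpowers _),
      fun a _ hg => (Subgroup.zpowers_le (H := MulAction.stabilizer _ y)).2 a hg⟩
  rw [← h3, IntermediateField.eq_of_le_of_finrank_eq (F := j.fieldRange)
    (E := IntermediateField.fixedField (Subgroup.zpowers g))]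
  · rintro _ ⟨x, rfl⟩
    exact (h3 _).2 (h1 x)
  · have a1 := Module.finrank_mul_finrank K (IntermediateField.fixedField (Subgroup.zpowers g)) L
    rw [IntermediateField.finrank_fixedField_eq_card, Nat.card_zpowers, ← h2] at a1
    rw [← j.equivFieldRange.toLinearEquiv.finrank_eq]
    exact (mul_right_cancel₀ (orderOf_pos g).ne' a1).symm

theorem emb {F' : Type} [Field F'] [NumberField F'] {m : ℕ} {θ' : F'} {γ' : F' ≃ₐ[ℚ] F'}
    (h : Cy F m θ γ) (h' : Cy F' n θ' γ') (hm : m ≤ n) :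
    ∃ j : F →+* F', j θ = tw^[n - m] θ' ∧ (∀ x, j (γ x) = γ' (j x)) ∧
      ∀ y, y ∈ j.range ↔ (γ' ^ 2 ^ m) y = y := by
  obtain ⟨j, e⟩ := lift h.gen h.root (y := tw^[n - m] θ') (by
    rw [← Function.iterate_add_apply, Nat.add_sub_cancel' hm, h'.root])
  have h1 : ∀ x, j (γ x) = γ' (j x) := by
    have : j.comp γ = (γ' : F' →ₐ[ℚ] F').comp j := (pb h.gen).algHom_ext (by
      change j (γ θ) = γ' (j θ)
      rw [e, map_tw, h'.act, tw_cube, h.act, ← e]
      simp [map_ofNat])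
    exact AlgHom.congr_fun this
  have h2 : ∀ (k : ℕ) x, j ((γ ^ k) x) = (γ' ^ k) (j x) := by
    intro k
    induction k with
    | zero => exact fun _ => rfl
    | succ k ih =>
      intro x
      rw [pow_succ, pow_succ, AlgEquiv.mul_apply, AlgEquiv.mul_apply, ih, h1]
  refine ⟨j, e, h1, range_eq j _ (fun x => (h2 _ x).symm.trans ?_) ?_⟩
  · rw [← order h, pow_orderOf_eq_one]
    rfl
  · rw [orderOf_pow_of_dvd (by positivity) (order h' ▸ pow_dvd_pow 2 hm), order h', h'.rk, h.rk,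
      Nat.pow_div hm two_pos, ← pow_add, Nat.add_sub_cancel' hm]

end CY

theorem rowCY : SCY where
  gal _ _ _ _ _ _ h := ⟨CY.galois h, CY.cyc h, CY.order h, CY.integral h.root⟩
  real _ _ _ _ _ _ h := CY.real h
  two _ _ _ _ _ _ h := CY.two h
  dist _ _ _ _ _ _ h := CY.dist h
  ex := CY.ex
  emb _ _ _ _ _ _ _ _ _ _ _ _ h h' hm := CY.emb h h' hm

end Pool.Agent.MP_1246c0_nt.H12
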